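import Mathlib

/-!
# MP_35d0eb_al: a finite ortholattice that embeds into no bipartition lattice `Bip(n)`

The direct product `MO₂ × 2` (12 elements) admits no ortholattice embedding into `Bip(n)`.
-/

set_option autoImplicit false

namespace Pool.Agent.Results.MP_35d0eb_al.NotEmbeddable

open Relation

/-- An ortholattice: a lattice with `0, 1` and an orthocomplementation. -/
class Ortholattice (K : Type*) extends Lattice K, BoundedOrder K, Compl K where
  compl_anti : ∀ x y : K, x ≤ y → yᶜ ≤ xᶜ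
  compl_invol : ∀ x : K, xᶜᶜ = x
  inf_compl_eq : ∀ x : K, x ⊓ xᶜ = ⊥

/-- An embedding of ortholattices: an injective map preserving `∨`, `∧` and `⊥`. -/
structure IsEmbedding {K L : Type*} [Ortholattice K] [Ortholattice L] (f : K → L) : Prop where
  inj : Function.Injective f
  map_sup : ∀ x y, f (x ⊔ y) = f x ⊔ f y
  map_inf : ∀ x y, f (x ⊓ y) = f x ⊓ f y
  map_compl : ∀ x, f xᶜ = (f x)ᶜ

/-! ### The ortholattice `Bip(n)` -/

/-- a binary relation, seen as a set of pairs, is transitive -/
def IsTransitive {n : ℕ} (a : Set (Fin n × Fin n)) : Prop :=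
  ∀ x y z, (x, y) ∈ a → (y, z) ∈ a → (x, z) ∈ a

/-- the transitive closure of a binary relation -/
def tcl {n : ℕ} (a : Set (Fin n × Fin n)) : Set (Fin n × Fin n) :=
  {q | TransGen (fun x y => (x, y) ∈ a) q.1 q.2}

/-- The bipartitions of `[n]`: the relations `a` such that `a` and its complement are
transitive. -/
def Bip (n : ℕ) : Type := {a : Set (Fin n × Fin n) // IsTransitive a ∧ IsTransitive aᶜ}

/-- `Bip(n)` is ordered by inclusion. -/
instance (n : ℕ) : PartialOrder (Bip n) where
  le a b := a.1 ⊆ b.1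
  le_refl a := Set.Subset.refl _
  le_trans a b c h1 h2 := Set.Subset.trans h1 h2
  le_antisymm a b h1 h2 := Subtype.ext (Set.Subset.antisymm h1 h2)

theorem tcl_trans {n : ℕ} (a : Set (Fin n × Fin n)) : IsTransitive (tcl a) :=
  fun _ _ _ h1 h2 => TransGen.trans h1 h2

theorem subset_tcl {n : ℕ} (a : Set (Fin n × Fin n)) : a ⊆ tcl a :=
  fun _ h => TransGen.single h

theorem tcl_subset {n : ℕ} {a b : Set (Fin n × Fin n)} (h : a ⊆ b) (hb : IsTransitive b) :
    tcl a ⊆ b := by
  rintro ⟨x, y⟩ hxy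
  change TransGen _ x y at hxy
  induction hxy with
  | single h1 => exact h h1
  | tail _ h2 ih => exact hb _ _ _ ih (h h2)

/-- the complement of the transitive closure of the union of two bipartitions is transitive -/
theorem tcl_union_compl {n : ℕ} (a b : Bip n) : IsTransitive (tcl (a.1 ∪ b.1))ᶜ := by
  intro x y z hxy hyz hxz
  obtain ⟨u, hxu, huz⟩ := TransGen.head'_iff.mp (show TransGen _ x z from hxz)
  -- `(y, u)` belongs to the union
  have hyu : (y, u) ∈ a.1 ∪ b.1 := by
    by_contra hn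
    rcases hxu with h | h
    · have h1 : (x, y) ∈ (a.1)ᶜ := fun h' => hxy (subset_tcl _ (Or.inl h'))
      have h2 : (y, u) ∈ (a.1)ᶜ := fun h' => hn (Or.inl h')
      exact a.2.2 _ _ _ h1 h2 h
    · have h1 : (x, y) ∈ (b.1)ᶜ := fun h' => hxy (subset_tcl _ (Or.inr h'))
      have h2 : (y, u) ∈ (b.1)ᶜ := fun h' => hn (Or.inr h')
      exact b.2.2 _ _ _ h1 h2 h
  exact hyz (show TransGen _ y z from TransGen.head'_iff.mpr ⟨u, hyu, huz⟩)

/-- orthocomplement: complement of the relation -/
def Bip.comp {n : ℕ} (a : Bip n) : Bip n := ⟨(a.1)ᶜ, a.2.2, by rw [compl_compl]; exact a.2.1⟩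

/-- join: transitive closure of the union -/
def Bip.join {n : ℕ} (a b : Bip n) : Bip n :=
  ⟨tcl (a.1 ∪ b.1), tcl_trans _, tcl_union_compl a b⟩

/-- `Bip(n)` with inclusion, join `cl(a ∪ b)`, and orthocomplement `a ↦ E_n \ a`, is an
ortholattice. -/
instance (n : ℕ) : Ortholattice (Bip n) where
  sup := Bip.join
  le_sup_left a b := fun _ h => subset_tcl _ (Or.inl h)
  le_sup_right a b := fun _ h => subset_tcl _ (Or.inr h)
  sup_le a b c h1 h2 := tcl_subset (Set.union_subset h1 h2) c.2.1
  inf a b := (Bip.join a.comp b.comp).comp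
  inf_le_left a b := fun _ h => by
    by_contra h'
    exact h (subset_tcl _ (Or.inl h'))
  inf_le_right a b := fun _ h => by
    by_contra h'
    exact h (subset_tcl _ (Or.inr h'))
  le_inf a b c h1 h2 := fun x hx h' => by
    have h3 : tcl (b.comp.1 ∪ c.comp.1) ⊆ (a.1)ᶜ := by
      apply tcl_subset _ a.2.2
      rintro y (hy | hy)
      · exact fun h4 => hy (h1 h4)
      · exact fun h4 => hy (h2 h4)
    exact h3 h' hx
  top := ⟨Set.univ, fun _ _ _ _ _ => trivial, fun _ _ _ h _ => absurd trivial h⟩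
  le_top a := Set.subset_univ _
  bot := ⟨∅, fun _ _ _ h _ => h.elim, fun _ _ _ _ _ h => h.elim⟩
  bot_le a := Set.empty_subset _
  compl := Bip.comp
  compl_anti a b h := Set.compl_subset_compl.mpr h
  compl_invol a := Subtype.ext (compl_compl _)
  inf_compl_eq a := by
    apply Subtype.ext
    apply Set.eq_empty_of_forall_notMem
    intro q hq
    apply hq
    by_cases h : q ∈ a.1
    · exact subset_tcl _ (Or.inr (fun h' => h' h))
    · exact subset_tcl _ (Or.inl h)

theorem bip_sup {n : ℕ} (a b : Bip n) : (a ⊔ b).1 = tcl (a.1 ∪ b.1) := rfl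
theorem bip_compl {n : ℕ} (a : Bip n) : (aᶜ).1 = (a.1)ᶜ := rfl

/-! ### The ortholattice `MO₂ × 2` -/

/-- `MO₂`: the horizontal sum `{0, a, a', b, b', 1}` -/
inductive MO2 | bot | a | a' | b | b' | top
deriving DecidableEq, Fintype

/-- order of `MO₂` -/
def MO2.le (x y : MO2) : Prop := x = .bot ∨ y = .top ∨ x = y

instance : DecidableRel MO2.le := fun x y => by unfold MO2.le; infer_instance

/-- join of `MO₂` -/
def MO2.sup (x y : MO2) : MO2 :=
  if x = .bot then y else if y = .bot then x else if x = y then x else .top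

/-- meet of `MO₂` -/
def MO2.inf (x y : MO2) : MO2 :=
  if x = .top then y else if y = .top then x else if x = y then x else .bot

/-- orthocomplement of `MO₂` -/
def MO2.comp : MO2 → MO2
  | .bot => .top
  | .a => .a'
  | .a' => .a
  | .b => .b'
  | .b' => .b
  | .top => .bot

instance : Ortholattice MO2 where
  le := MO2.le
  le_refl := by decide
  le_trans := by decide
  le_antisymm := by decide
  sup := MO2.sup
  le_sup_left := by decide
  le_sup_right := by decide
  sup_le := by decide
  inf := MO2.inf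
  inf_le_left := by decide
  inf_le_right := by decide
  le_inf := by decide
  top := .top
  le_top := by decide
  bot := .bot
  bot_le := by decide
  compl := MO2.comp
  compl_anti := by decide
  compl_invol := by decide
  inf_compl_eq := by decide

/-- The two-element ortholattice -/
instance : Ortholattice Bool where
  le x y := x ≤ y
  lt x y := x < y
  lt_iff_le_not_ge := by decide
  le_refl := by decide
  le_trans := by decide
  le_antisymm := by decide
  sup x y := x || y
  le_sup_left := by decide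
  le_sup_right := by decide
  sup_le := by decide
  inf x y := x && y
  inf_le_left := by decide
  inf_le_right := by decide
  le_inf := by decide
  top := true
  le_top := by decide
  bot := false
  bot_le := by decide
  compl x := !x
  compl_anti := by decide
  compl_invol := by decide
  inf_compl_eq := by decide

/-- The direct product of two ortholattices -/
instance {K L : Type*} [Ortholattice K] [Ortholattice L] : Ortholattice (K × L) where
  compl_anti _ _ h := ⟨Ortholattice.compl_anti _ _ h.1, Ortholattice.compl_anti _ _ h.2⟩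
  compl_invol _ := Prod.ext (Ortholattice.compl_invol _) (Ortholattice.compl_invol _)
  inf_compl_eq _ := Prod.ext (Ortholattice.inf_compl_eq _) (Ortholattice.inf_compl_eq _)

/-! ### The combinatorial core -/

section Core

variable {α : Type*}

/-- If the row of `p` in `X` is empty, then one of the rows of `p` in `A`, `A'` is empty. -/
theorem rows (X A A' : α → α → Prop)
    (hXt : ∀ x y z, X x y → X y z → X x z) (hXc : ∀ x y z, ¬ X x y → ¬ X y z → ¬ X x z)
    (p s : α) (hp : ∀ e, ¬ X p e) (hs : ∀ e, X e s → X s e) (hne : ∃ e e', X e e')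
    (hA : ∀ x y, ¬ A x y ↔ TransGen (fun u v => X u v ∨ A' u v) x y)
    (hA' : ∀ x y, ¬ A' x y ↔ TransGen (fun u v => X u v ∨ A u v) x y)
    (hAA : ∀ x y, ¬ X x y ↔ TransGen (fun u v => A u v ∨ A' u v) x y)
    (hps : ¬ A' p s) :
    (∀ v, ¬ A p v) ∨ (∀ v, ¬ A' p v) := by
  by_contra hcon
  push Not at hcon
  obtain ⟨⟨v, hv⟩, ⟨w, hw⟩⟩ := hcon
  have h_w : ∀ w, A' p w → ¬ X s w := by
    intro w hw hsw
    exact (hA' p w).mpr (((hA' p s).mp hps).tail (Or.inl hsw)) hw
  have hsw := h_w w hw
  have hss : ¬ X s s := by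
    intro hss
    apply hsw
    by_contra h1
    exact hXc s w s h1 (fun h2 => h1 (hs w h2)) hss
  have hcol : ∀ e, ¬ X e s := fun e he => hss (hXt _ _ _ (hs e he) he)
  have h_v : ∀ v, A p v → ¬ X s v := by
    intro v hv hsv
    have h1 : X w v := by
      by_contra h1
      exact hXc s w v hsw h1 hsv
    have h2 : TransGen (fun u v => X u v ∨ A' u v) p w := TransGen.single (Or.inr hw)
    exact (hA p v).mpr (h2.tail (Or.inl h1)) hv
  have hcl : ∀ y, TransGen (fun u v => A u v ∨ A' u v) p y → ¬ X s y := by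
    intro y hy
    induction hy with
    | single h =>
      rcases h with h | h
      · exact h_v _ h
      · exact h_w _ h
    | tail _ h ih =>
      exact hXc _ _ _ ih ((hAA _ _).mpr (TransGen.single h))
  have hsp : ¬ X s p := hcl p ((hAA p p).mp (hp p))
  obtain ⟨e, e', hee⟩ := hne
  exact hXc e s e' (hcol e) (hXc s p e' hsp (hp e')) hee

/-- symmetric version -/
theorem rows' (X A A' : α → α → Prop)
    (hXt : ∀ x y z, X x y → X y z → X x z) (hXc : ∀ x y z, ¬ X x y → ¬ X y z → ¬ X x z)
    (p s : α) (hp : ∀ e, ¬ X p e) (hs : ∀ e, X e s → X s e) (hne : ∃ e e', X e e')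
    (hA : ∀ x y, ¬ A x y ↔ TransGen (fun u v => X u v ∨ A' u v) x y)
    (hA' : ∀ x y, ¬ A' x y ↔ TransGen (fun u v => X u v ∨ A u v) x y)
    (hAA : ∀ x y, ¬ X x y ↔ TransGen (fun u v => A u v ∨ A' u v) x y) :
    (∀ v, ¬ A p v) ∨ (∀ v, ¬ A' p v) := by
  by_cases hps : A' p s
  · have hps' : ¬ A p s := (hA p s).mpr (TransGen.single (Or.inr hps))
    have hAA' : ∀ x y, ¬ X x y ↔ TransGen (fun u v => A' u v ∨ A u v) x y := by
      intro x y
      rw [hAA x y]
      have : (fun u v => A u v ∨ A' u v) = (fun u v => A' u v ∨ A u v) := by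
        funext u v; exact propext or_comm
      rw [this]
    exact (rows X A' A hXt hXc p s hp hs hne hA' hA hAA' hps').symm
  · exact rows X A A' hXt hXc p s hp hs hne hA hA' hAA hps

/-- The hypotheses on the images of `x = (0,1)` and of `(a,0), (a',0), (b,0), (b',0)`. -/
structure Config (X A A' B B' : α → α → Prop) : Prop where
  hXt : ∀ x y z, X x y → X y z → X x z
  hXc : ∀ x y z, ¬ X x y → ¬ X y z → ¬ X x z
  hne : ∃ e e', X e e'
  hA : ∀ x y, ¬ A x y ↔ TransGen (fun u v => X u v ∨ A' u v) x y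
  hA' : ∀ x y, ¬ A' x y ↔ TransGen (fun u v => X u v ∨ A u v) x y
  hB : ∀ x y, ¬ B x y ↔ TransGen (fun u v => X u v ∨ B' u v) x y
  hB' : ∀ x y, ¬ B' x y ↔ TransGen (fun u v => X u v ∨ B u v) x y
  aa' : ∀ x y, ¬ X x y ↔ TransGen (fun u v => A u v ∨ A' u v) x y
  bb' : ∀ x y, ¬ X x y ↔ TransGen (fun u v => B u v ∨ B' u v) x y
  ab : ∀ x y, ¬ X x y ↔ TransGen (fun u v => A u v ∨ B u v) x y
  ab' : ∀ x y, ¬ X x y ↔ TransGen (fun u v => A u v ∨ B' u v) x y
  a'b : ∀ x y, ¬ X x y ↔ TransGen (fun u v => A' u v ∨ B u v) x y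
  a'b' : ∀ x y, ¬ X x y ↔ TransGen (fun u v => A' u v ∨ B' u v) x y

theorem swap_iff (P Q R : α → α → Prop)
    (h : ∀ x y, ¬ P x y ↔ TransGen (fun u v => Q u v ∨ R u v) x y) :
    ∀ x y, ¬ P y x ↔ TransGen (fun u v => Q v u ∨ R v u) x y := by
  intro x y
  rw [h y x]
  exact (transGen_swap (r := fun u v => Q u v ∨ R u v)).symm

theorem Config.swap {X A A' B B' : α → α → Prop} (h : Config X A A' B B') :
    Config (fun x y => X y x) (fun x y => A y x) (fun x y => A' y x) (fun x y => B y x)
      (fun x y => B' y x) where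
  hXt := fun x y z h1 h2 => h.hXt _ _ _ h2 h1
  hXc := fun x y z h1 h2 => h.hXc _ _ _ h2 h1
  hne := by obtain ⟨e, e', he⟩ := h.hne; exact ⟨e', e, he⟩
  hA := swap_iff _ _ _ h.hA
  hA' := swap_iff _ _ _ h.hA'
  hB := swap_iff _ _ _ h.hB
  hB' := swap_iff _ _ _ h.hB'
  aa' := swap_iff _ _ _ h.aa'
  bb' := swap_iff _ _ _ h.bb'
  ab := swap_iff _ _ _ h.ab
  ab' := swap_iff _ _ _ h.ab'
  a'b := swap_iff _ _ _ h.a'b
  a'b' := swap_iff _ _ _ h.a'b'

theorem no_loop (P Q : α → α → Prop) (p : α) (h1 : ∀ v, ¬ P p v) (h2 : ∀ v, ¬ Q p v)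
    (h : TransGen (fun u v => P u v ∨ Q u v) p p) : False := by
  obtain ⟨u, hu, _⟩ := TransGen.head'_iff.mp h
  rcases hu with hu | hu
  · exact h1 _ hu
  · exact h2 _ hu

/-- no configuration in which some row of `X` is empty -/
theorem case_row {X A A' B B' : α → α → Prop} (h : Config X A A' B B') (p s : α)
    (hp : ∀ e, ¬ X p e) (hs : ∀ e, X e s → X s e) : False := by
  rcases rows' X A A' h.hXt h.hXc p s hp hs h.hne h.hA h.hA' h.aa' with ha | ha <;>
  rcases rows' X B B' h.hXt h.hXc p s hp hs h.hne h.hB h.hB' h.bb' with hb | hb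
  · exact no_loop A B p ha hb ((h.ab p p).mp (hp p))
  · exact no_loop A B' p ha hb ((h.ab' p p).mp (hp p))
  · exact no_loop A' B p ha hb ((h.a'b p p).mp (hp p))
  · exact no_loop A' B' p ha hb ((h.a'b' p p).mp (hp p))

/-- a finite nonempty type with a transitive relation has a top element -/
theorem exists_top [Finite α] [Nonempty α] (X : α → α → Prop)
    (hXt : ∀ x y z, X x y → X y z → X x z) : ∃ p, ∀ e, X p e → X e p := by
  classical
  let r : α → α → Prop := fun a b => X b a ∧ ¬ X a b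
  have : IsTrans α r := ⟨fun a b c h1 h2 =>
    ⟨hXt _ _ _ h2.1 h1.1, fun h => h1.2 (hXt _ _ _ h h2.1)⟩⟩
  have : Std.Irrefl r := ⟨fun a h => h.2 h.1⟩
  have wf : WellFounded r := Finite.wellFounded_of_trans_of_irrefl r
  obtain ⟨p, _, hp⟩ := wf.has_min Set.univ ⟨Classical.arbitrary α, trivial⟩
  refine ⟨p, fun e he => ?_⟩
  by_contra h
  exact hp e trivial ⟨he, h⟩

theorem no_config [Finite α] [Nonempty α] {X A A' B B' : α → α → Prop}
    (h : Config X A A' B B') (hAne : ∃ e e', A e e')
    (hA'ne : ∃ e e', A' e e') : False := by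
  obtain ⟨p, hp⟩ := exists_top X h.hXt
  obtain ⟨s, hs⟩ := exists_top (fun x y => X y x) (fun x y z h1 h2 => h.hXt _ _ _ h2 h1)
  by_cases hpp : X p p
  · by_cases hss : X s s
    · -- column `p` and row `s` are full
      have hcol : ∀ e, X e p := by
        intro e
        by_contra h1
        exact h.hXc p e p (fun h2 => h1 (hp e h2)) h1 hpp
      have hrow : ∀ e, X s e := by
        intro e
        by_contra h1
        exact h.hXc s e s h1 (fun h2 => h1 (hs e h2)) hss
      have h1 : A' p s := by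
        by_contra hn
        obtain ⟨e, e', he⟩ := hA'ne
        have h0 : TransGen (fun u v => X u v ∨ A u v) e p := TransGen.single (Or.inl (hcol e))
        have h2 : TransGen (fun u v => X u v ∨ A u v) e e' :=
          (h0.trans ((h.hA' p s).mp hn)).tail (Or.inl (hrow e'))
        exact (h.hA' e e').mpr h2 he
      have h2 : A p s := by
        by_contra hn
        obtain ⟨e, e', he⟩ := hAne
        have h0 : TransGen (fun u v => X u v ∨ A' u v) e p := TransGen.single (Or.inl (hcol e))
        have h2 : TransGen (fun u v => X u v ∨ A' u v) e e' :=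
          (h0.trans ((h.hA p s).mp hn)).tail (Or.inl (hrow e'))
        exact (h.hA e e').mpr h2 he
      exact (h.hA' p s).mpr (TransGen.single (Or.inr h2)) h1
    · exact case_row h.swap s p (fun e he => hss (h.hXt _ _ _ (hs e he) he)) hp
  · exact case_row h p s (fun e he => hpp (h.hXt _ _ _ he (hp e he))) hs

end Core

/-! ### Main theorem -/

theorem tcl_iff {n : ℕ} (P Q R : Set (Fin n × Fin n)) (h : Pᶜ = tcl (Q ∪ R)) (x y : Fin n) :
    ¬ ((x, y) ∈ P) ↔ TransGen (fun u v => (u, v) ∈ Q ∨ (u, v) ∈ R) x y := by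
  have : (x, y) ∈ Pᶜ ↔ (x, y) ∈ tcl (Q ∪ R) := by rw [h]
  exact this

theorem main (n : ℕ) (hn : 1 ≤ n) (f : MO2 × Bool → Bip n) (hf : IsEmbedding f) : False := by
  have : Nonempty (Fin n) := ⟨⟨0, hn⟩⟩
  have hbot : f ⊥ = ⊥ := by
    rw [← Ortholattice.inf_compl_eq (⊥ : MO2 × Bool), hf.map_inf, hf.map_compl,
      Ortholattice.inf_compl_eq]
  -- values
  have cA : ((f (.a, false)).1)ᶜ = tcl ((f (.bot, true)).1 ∪ (f (.a', false)).1) := by
    rw [← bip_sup, ← bip_compl, ← hf.map_sup, ← hf.map_compl]; congr 2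
  have cA' : ((f (.a', false)).1)ᶜ = tcl ((f (.bot, true)).1 ∪ (f (.a, false)).1) := by
    rw [← bip_sup, ← bip_compl, ← hf.map_sup, ← hf.map_compl]; congr 2
  have cB : ((f (.b, false)).1)ᶜ = tcl ((f (.bot, true)).1 ∪ (f (.b', false)).1) := by
    rw [← bip_sup, ← bip_compl, ← hf.map_sup, ← hf.map_compl]; congr 2
  have cB' : ((f (.b', false)).1)ᶜ = tcl ((f (.bot, true)).1 ∪ (f (.b, false)).1) := by
    rw [← bip_sup, ← bip_compl, ← hf.map_sup, ← hf.map_compl]; congr 2
  have c1 : ((f (.bot, true)).1)ᶜ = tcl ((f (.a, false)).1 ∪ (f (.a', false)).1) := by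
    rw [← bip_sup, ← bip_compl, ← hf.map_sup, ← hf.map_compl]; congr 2
  have c2 : ((f (.bot, true)).1)ᶜ = tcl ((f (.b, false)).1 ∪ (f (.b', false)).1) := by
    rw [← bip_sup, ← bip_compl, ← hf.map_sup, ← hf.map_compl]; congr 2
  have c3 : ((f (.bot, true)).1)ᶜ = tcl ((f (.a, false)).1 ∪ (f (.b, false)).1) := by
    rw [← bip_sup, ← bip_compl, ← hf.map_sup, ← hf.map_compl]; congr 2
  have c4 : ((f (.bot, true)).1)ᶜ = tcl ((f (.a, false)).1 ∪ (f (.b', false)).1) := by
    rw [← bip_sup, ← bip_compl, ← hf.map_sup, ← hf.map_compl]; congr 2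
  have c5 : ((f (.bot, true)).1)ᶜ = tcl ((f (.a', false)).1 ∪ (f (.b, false)).1) := by
    rw [← bip_sup, ← bip_compl, ← hf.map_sup, ← hf.map_compl]; congr 2
  have c6 : ((f (.bot, true)).1)ᶜ = tcl ((f (.a', false)).1 ∪ (f (.b', false)).1) := by
    rw [← bip_sup, ← bip_compl, ← hf.map_sup, ← hf.map_compl]; congr 2
  have nonempty : ∀ z : MO2 × Bool, z ≠ ⊥ → ∃ e e', (e, e') ∈ (f z).1 := by
    intro z hz
    by_contra hcon
    push Not at hcon
    apply hz
    apply hf.inj
    rw [hbot]
    apply Subtype.ext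
    apply Set.eq_empty_of_forall_notMem
    rintro ⟨e, e'⟩ h
    exact hcon e e' h
  have hconf : Config (fun x y => (x, y) ∈ (f (.bot, true)).1)
      (fun x y => (x, y) ∈ (f (.a, false)).1) (fun x y => (x, y) ∈ (f (.a', false)).1)
      (fun x y => (x, y) ∈ (f (.b, false)).1) (fun x y => (x, y) ∈ (f (.b', false)).1) :=
    { hXt := (f (.bot, true)).2.1
      hXc := (f (.bot, true)).2.2
      hne := nonempty _ (by decide)
      hA := tcl_iff _ _ _ cA
      hA' := tcl_iff _ _ _ cA'
      hB := tcl_iff _ _ _ cB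
      hB' := tcl_iff _ _ _ cB'
      aa' := tcl_iff _ _ _ c1
      bb' := tcl_iff _ _ _ c2
      ab := tcl_iff _ _ _ c3
      ab' := tcl_iff _ _ _ c4
      a'b := tcl_iff _ _ _ c5
      a'b' := tcl_iff _ _ _ c6 }
  exact no_config hconf (nonempty _ (by decide)) (nonempty _ (by decide))

/-- **Negative answer to Q1.** There is a finite ortholattice (the direct product `MO₂ × 2`,
with 12 elements) that embeds into no `Bip(n)`, `n ≥ 1`. -/
theorem result : ∃ (K : Type) (_ : Fintype K) (_ : Ortholattice K), Fintype.card K = 12 ∧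
    ∀ n : ℕ, 1 ≤ n → ¬ ∃ f : K → Bip n, IsEmbedding f := by
  refine ⟨MO2 × Bool, inferInstance, inferInstance, by decide, ?_⟩
  rintro n hn ⟨f, hf⟩
  exact main n hn f hf

end Pool.Agent.Results.MP_35d0eb_al.NotEmbeddable
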